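import Pool.Agent.W345.VO.Stm

/-! # Project VO: Dong's lemma -/

set_option autoImplicit false

namespace Pool.Agent.W369.VO

open Pool.Agent.W345.VO

section arrays

variable {V : Type} [AddCommGroup V] [Module ℂ V]

/-- The shift of the first index. -/
def Z : Module.End ℂ (ℤ → ℤ → ℤ → V) where
  toFun F := fun p q t => F (p + 1) q t
  map_add' _ _ := rfl
  map_smul' _ _ := rfl

/-- The shift of the second index. -/
def W : Module.End ℂ (ℤ → ℤ → ℤ → V) where
  toFun F := fun p q t => F p (q + 1) t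
  map_add' _ _ := rfl
  map_smul' _ _ := rfl

/-- The shift of the third index. -/
def U : Module.End ℂ (ℤ → ℤ → ℤ → V) where
  toFun F := fun p q t => F p q (t + 1)
  map_add' _ _ := rfl
  map_smul' _ _ := rfl

lemma comm_ZW : Commute (Z : Module.End ℂ (ℤ → ℤ → ℤ → V)) W := LinearMap.ext fun _ => rfl
lemma comm_ZU : Commute (Z : Module.End ℂ (ℤ → ℤ → ℤ → V)) U := LinearMap.ext fun _ => rfl
lemma comm_WU : Commute (W : Module.End ℂ (ℤ → ℤ → ℤ → V)) U := LinearMap.ext fun _ => rfl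

lemma comm1 : Commute (Z - U : Module.End ℂ (ℤ → ℤ → ℤ → V)) (W - U) :=
  Commute.sub_left (Commute.sub_right comm_ZW comm_ZU)
    (Commute.sub_right comm_WU.symm (Commute.refl U))

lemma comm2 : Commute (Z - U : Module.End ℂ (ℤ → ℤ → ℤ → V)) (W - Z) :=
  Commute.sub_left (Commute.sub_right comm_ZW (Commute.refl Z))
    (Commute.sub_right comm_WU.symm comm_ZU.symm)

/-- Compatible with pointwise finite sums. -/
def Gd (X : Module.End ℂ (ℤ → ℤ → ℤ → V)) : Prop :=
  ∀ G : ℕ → ℤ → ℤ → ℤ → V, (∀ p q t, (Function.support fun i => G i p q t).Finite) →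
    (∀ p q t, (Function.support fun i => X (G i) p q t).Finite) ∧
    ∀ p q t, X (fun p q t => ∑ᶠ i, G i p q t) p q t = ∑ᶠ i, X (G i) p q t

lemma Gd_Z : Gd (Z : Module.End ℂ (ℤ → ℤ → ℤ → V)) :=
  fun _ hG => ⟨fun p q t => hG (p + 1) q t, fun _ _ _ => rfl⟩
lemma Gd_W : Gd (W : Module.End ℂ (ℤ → ℤ → ℤ → V)) :=
  fun _ hG => ⟨fun p q t => hG p (q + 1) t, fun _ _ _ => rfl⟩
lemma Gd_U : Gd (U : Module.End ℂ (ℤ → ℤ → ℤ → V)) :=
  fun _ hG => ⟨fun p q t => hG p q (t + 1), fun _ _ _ => rfl⟩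

lemma Gd_one : Gd (1 : Module.End ℂ (ℤ → ℤ → ℤ → V)) :=
  fun _ hG => ⟨fun p q t => hG p q t, fun _ _ _ => rfl⟩

lemma Gd.sub {X Y : Module.End ℂ (ℤ → ℤ → ℤ → V)} (hX : Gd X) (hY : Gd Y) : Gd (X - Y) := by
  intro G hG
  obtain ⟨h1, h2⟩ := hX G hG
  obtain ⟨h3, h4⟩ := hY G hG
  refine ⟨fun p q t => ?_, fun p q t => ?_⟩
  · exact ((h1 p q t).union (h3 p q t)).subset
      (Function.support_sub (fun i => X (G i) p q t) (fun i => Y (G i) p q t))
  · change X (fun p q t => ∑ᶠ i, G i p q t) p q t - Y (fun p q t => ∑ᶠ i, G i p q t) p q t =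
      ∑ᶠ i, (X (G i) p q t - Y (G i) p q t)
    rw [finsum_sub_distrib (h1 p q t) (h3 p q t), h2, h4]

lemma Gd.mul {X Y : Module.End ℂ (ℤ → ℤ → ℤ → V)} (hX : Gd X) (hY : Gd Y) : Gd (X * Y) := by
  intro G hG
  obtain ⟨h3, h4⟩ := hY G hG
  obtain ⟨h1, h2⟩ := hX (fun i => Y (G i)) h3
  refine ⟨h1, fun p q t => ?_⟩
  have h5 : Y (fun p q t => ∑ᶠ i, G i p q t) = fun p q t => ∑ᶠ i, Y (G i) p q t := by
    funext p q t
    exact h4 p q t
  change X (Y (fun p q t => ∑ᶠ i, G i p q t)) p q t = _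
  rw [h5]
  exact h2 p q t

lemma Gd.pow {X : Module.End ℂ (ℤ → ℤ → ℤ → V)} (hX : Gd X) (n : ℕ) : Gd (X ^ n) := by
  induction n with
  | zero => rw [pow_zero]; exact Gd_one
  | succ n ih => rw [pow_succ]; exact ih.mul hX

/-- A pointwise finite sum of arrays killed by `X` is killed by `X`. -/
lemma Gd.kill {X : Module.End ℂ (ℤ → ℤ → ℤ → V)} (hX : Gd X) (G : ℕ → ℤ → ℤ → ℤ → V)
    (hG : ∀ p q t, (Function.support fun i => G i p q t).Finite) (h0 : ∀ i, X (G i) = 0) :
    X (fun p q t => ∑ᶠ i, G i p q t) = 0 := by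
  funext p q t
  rw [(hX G hG).2 p q t]
  have : ∀ i, X (G i) p q t = 0 := fun i => by rw [h0 i]; rfl
  simp only [this, finsum_zero]
  rfl

variable (hP : S_PAS)
include hP

lemma pow_ZU {a c : ℤ → Module.End ℂ V} (ha : a ∈ FL V) (hc : c ∈ FL V) (x : ℤ → V) (α : ℤ)
    (k : ℕ) (p q t : ℤ) :
    ((Z - U : Module.End ℂ (ℤ → ℤ → ℤ → V)) ^ k) (fun p q t => RR a c 0 (p + α) t (x q)) p q t =
      RR a c k (p + α) t (x q) := by
  induction k generalizing p q t with
  | zero => rfl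
  | succ k ih =>
    rw [pow_succ', Module.End.mul_apply]
    change ((Z - U : Module.End ℂ (ℤ → ℤ → ℤ → V)) ^ k)
      (fun p q t => RR a c 0 (p + α) t (x q)) (p + 1) q t -
      ((Z - U : Module.End ℂ (ℤ → ℤ → ℤ → V)) ^ k)
      (fun p q t => RR a c 0 (p + α) t (x q)) p q (t + 1) = _
    rw [ih, ih, Nat.cast_succ, ← hP V a c ha hc k (p + α) t (x q)]
    rw [show p + 1 + α = p + α + 1 by ring]

lemma pow_WU {b c : ℤ → Module.End ℂ V} (hb : b ∈ FL V) (hc : c ∈ FL V) (x : ℤ → V) (β : ℤ)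
    (k : ℕ) (p q t : ℤ) :
    ((W - U : Module.End ℂ (ℤ → ℤ → ℤ → V)) ^ k) (fun p q t => RR b c 0 (q + β) t (x p)) p q t =
      RR b c k (q + β) t (x p) := by
  induction k generalizing p q t with
  | zero => rfl
  | succ k ih =>
    rw [pow_succ', Module.End.mul_apply]
    change ((W - U : Module.End ℂ (ℤ → ℤ → ℤ → V)) ^ k)
      (fun p q t => RR b c 0 (q + β) t (x p)) p (q + 1) t -
      ((W - U : Module.End ℂ (ℤ → ℤ → ℤ → V)) ^ k)
      (fun p q t => RR b c 0 (q + β) t (x p)) p q (t + 1) = _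
    rw [ih, ih, Nat.cast_succ, ← hP V b c hb hc k (q + β) t (x p)]
    rw [show q + 1 + β = q + β + 1 by ring]

lemma pow_ZU' {a c : ℤ → Module.End ℂ V} (ha : a ∈ FL V) (hc : c ∈ FL V)
    (y : ℤ → Module.End ℂ V) (v : V) (α : ℤ) (k : ℕ) (p q t : ℤ) :
    ((Z - U : Module.End ℂ (ℤ → ℤ → ℤ → V)) ^ k)
      (fun p q t => y q (RR a c 0 (p + α) t v)) p q t = y q (RR a c k (p + α) t v) := by
  induction k generalizing p q t with
  | zero => rfl
  | succ k ih =>
    rw [pow_succ', Module.End.mul_apply]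
    change ((Z - U : Module.End ℂ (ℤ → ℤ → ℤ → V)) ^ k)
      (fun p q t => y q (RR a c 0 (p + α) t v)) (p + 1) q t -
      ((Z - U : Module.End ℂ (ℤ → ℤ → ℤ → V)) ^ k)
      (fun p q t => y q (RR a c 0 (p + α) t v)) p q (t + 1) = _
    rw [ih, ih, Nat.cast_succ, ← hP V a c ha hc k (p + α) t v, map_sub]
    rw [show p + 1 + α = p + α + 1 by ring]

lemma pow_WU' {b c : ℤ → Module.End ℂ V} (hb : b ∈ FL V) (hc : c ∈ FL V)
    (y : ℤ → Module.End ℂ V) (v : V) (β : ℤ) (k : ℕ) (p q t : ℤ) :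
    ((W - U : Module.End ℂ (ℤ → ℤ → ℤ → V)) ^ k)
      (fun p q t => y p (RR b c 0 (q + β) t v)) p q t = y p (RR b c k (q + β) t v) := by
  induction k generalizing p q t with
  | zero => rfl
  | succ k ih =>
    rw [pow_succ', Module.End.mul_apply]
    change ((W - U : Module.End ℂ (ℤ → ℤ → ℤ → V)) ^ k)
      (fun p q t => y p (RR b c 0 (q + β) t v)) p (q + 1) t -
      ((W - U : Module.End ℂ (ℤ → ℤ → ℤ → V)) ^ k)
      (fun p q t => y p (RR b c 0 (q + β) t v)) p q (t + 1) = _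
    rw [ih, ih, Nat.cast_succ, ← hP V b c hb hc k (q + β) t v, map_sub]
    rw [show q + 1 + β = q + β + 1 by ring]

/-- Larger exponents. -/
lemma RR_large {a b : ℤ → Module.End ℂ V} (ha : a ∈ FL V) (hb : b ∈ FL V) {N : ℤ}
    (h : ∀ (p q : ℤ) (v : V), RR a b N p q v = 0) (k : ℕ) (p q : ℤ) (v : V) :
    RR a b (N + k) p q v = 0 := by
  induction k generalizing p q with
  | zero => rw [Nat.cast_zero, add_zero]; exact h p q v
  | succ k ih =>
    rw [Nat.cast_succ, ← add_assoc, ← hP V a b ha hb (N + k) p q v, ih, ih, sub_zero]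

omit hP in
lemma RR_zero (a b : ℤ → Module.End ℂ V) (p q : ℤ) (v : V) :
    RR a b 0 p q v = a p (b q v) - b q (a p v) := by
  unfold RR
  rw [finsum_eq_single _ 0]
  · unfold trm bc
    simp
  · intro i hi
    unfold trm bc
    have : Ring.choose (0 : ℤ) i = 0 := by
      rw [← Nat.cast_zero, Ring.choose_natCast, Nat.choose_eq_zero_of_lt (Nat.pos_of_ne_zero hi)]
    rw [this, Int.cast_zero, mul_zero, zero_smul]

/-- The commutator of a product with `c`. -/
lemma kill1 {a b c : ℤ → Module.End ℂ V} (ha : a ∈ FL V) (hb : b ∈ FL V) (hc : c ∈ FL V) {N : ℕ}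
    (hac : ∀ (p q : ℤ) (v : V), RR a c N p q v = 0)
    (hbc : ∀ (p q : ℤ) (v : V), RR b c N p q v = 0) (v : V) (α β : ℤ) :
    (((Z - U) ^ N * (W - U) ^ N : Module.End ℂ (ℤ → ℤ → ℤ → V)))
      (fun p q t => a (p + α) (b (q + β) (c t v)) - c t (a (p + α) (b (q + β) v))) = 0 := by
  have h1 : (fun p q t => a (p + α) (b (q + β) (c t v)) - c t (a (p + α) (b (q + β) v))) =
      (fun p q t => a (p + α) (RR b c 0 (q + β) t v)) +
      (fun (p : ℤ) (q : ℤ) (t : ℤ) => RR a c 0 (p + α) t (b (q + β) v)) := by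
    funext p q t
    change _ = a (p + α) (RR b c 0 (q + β) t v) + RR a c 0 (p + α) t (b (q + β) v)
    rw [RR_zero, RR_zero, map_sub]
    abel
  have h2 : ((W - U : Module.End ℂ (ℤ → ℤ → ℤ → V)) ^ N)
      (fun p q t => a (p + α) (RR b c 0 (q + β) t v)) = 0 := by
    funext p q t
    rw [pow_WU' hP hb hc (fun p => a (p + α)) v β N p q t, hbc, map_zero]
    rfl
  have h3 : ((Z - U : Module.End ℂ (ℤ → ℤ → ℤ → V)) ^ N)
      (fun (p : ℤ) (q : ℤ) (t : ℤ) => RR a c 0 (p + α) t (b (q + β) v)) = 0 := by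
    funext p q t
    rw [pow_ZU hP ha hc (fun q => b (q + β) v) α N p q t, hac]
    rfl
  rw [h1, map_add, Module.End.mul_apply, h2, map_zero, zero_add,
    (comm1.pow_pow N N).eq, Module.End.mul_apply, h3, map_zero]

lemma kill2 {a b c : ℤ → Module.End ℂ V} (ha : a ∈ FL V) (hb : b ∈ FL V) (hc : c ∈ FL V) {N : ℕ}
    (hac : ∀ (p q : ℤ) (v : V), RR a c N p q v = 0)
    (hbc : ∀ (p q : ℤ) (v : V), RR b c N p q v = 0) (v : V) (α β : ℤ) :
    (((Z - U) ^ N * (W - U) ^ N : Module.End ℂ (ℤ → ℤ → ℤ → V)))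
      (fun p q t => b (q + β) (a (p + α) (c t v)) - c t (b (q + β) (a (p + α) v))) = 0 := by
  have h1 : (fun p q t => b (q + β) (a (p + α) (c t v)) - c t (b (q + β) (a (p + α) v))) =
      (fun (p : ℤ) (q : ℤ) (t : ℤ) => b (q + β) (RR a c 0 (p + α) t v)) +
      (fun (p : ℤ) (q : ℤ) (t : ℤ) => RR b c 0 (q + β) t (a (p + α) v)) := by
    funext p q t
    change _ = b (q + β) (RR a c 0 (p + α) t v) + RR b c 0 (q + β) t (a (p + α) v)
    rw [RR_zero, RR_zero, map_sub]
    abel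
  have h2 : ((Z - U : Module.End ℂ (ℤ → ℤ → ℤ → V)) ^ N)
      (fun (p : ℤ) (q : ℤ) (t : ℤ) => b (q + β) (RR a c 0 (p + α) t v)) = 0 := by
    funext p q t
    rw [pow_ZU' hP ha hc (fun q => b (q + β)) v α N p q t, hac, map_zero]
    rfl
  have h3 : ((W - U : Module.End ℂ (ℤ → ℤ → ℤ → V)) ^ N)
      (fun (p : ℤ) (q : ℤ) (t : ℤ) => RR b c 0 (q + β) t (a (p + α) v)) = 0 := by
    funext p q t
    rw [pow_WU hP hb hc (fun p => a (p + α) v) β N p q t, hbc]
    rfl
  rw [h1, map_add, Module.End.mul_apply, Module.End.mul_apply, h3, map_zero, add_zero,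
    ← Module.End.mul_apply, (comm1.pow_pow N N).eq, Module.End.mul_apply, h2, map_zero]

end arrays

theorem dong' : S_FIN → S_PAS → S_DONG := by
  intro hF hP V _ _ a b c d ha hb hc hd hab hac hbc n hdn
  obtain ⟨N1, h1⟩ := hab
  obtain ⟨N2, h2⟩ := hac
  obtain ⟨N3, h3⟩ := hbc
  let N : ℕ := max N1 (max N2 N3)
  have hab' : ∀ (p q : ℤ) (v : V), RR a b N p q v = 0 := by
    intro p q v
    have := RR_large hP ha hb h1 (N - N1) p q v
    have e : (N1 : ℤ) + ((N - N1 : ℕ) : ℤ) = N := by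
      have : N1 ≤ N := le_max_left _ _
      omega
    rwa [e] at this
  have hac' : ∀ (p q : ℤ) (v : V), RR a c N p q v = 0 := by
    intro p q v
    have := RR_large hP ha hc h2 (N - N2) p q v
    have e : (N2 : ℤ) + ((N - N2 : ℕ) : ℤ) = N := by
      have : N2 ≤ N := (le_max_left _ _).trans (le_max_right _ _)
      omega
    rwa [e] at this
  have hbc' : ∀ (p q : ℤ) (v : V), RR b c N p q v = 0 := by
    intro p q v
    have := RR_large hP hb hc h3 (N - N3) p q v
    have e : (N3 : ℤ) + ((N - N3 : ℕ) : ℤ) = N := by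
      have : N3 ≤ N := (le_max_right _ _).trans (le_max_right _ _)
      omega
    rwa [e] at this
  let K : ℕ := (N - n).toNat
  refine ⟨N + (N + K), ?_⟩
  intro q t v
  -- the arrays
  let Th : ℤ → ℤ → ℤ → ℤ → V := fun r p q t =>
    RR a b r p q (c t v) - c t (RR a b r p q v)
  have hTh1 : ∀ r, (W - Z : Module.End ℂ (ℤ → ℤ → ℤ → V)) (Th r) = (-1 : ℂ) • Th (r + 1) := by
    intro r
    funext p q t
    change Th r p (q + 1) t - Th r (p + 1) q t = (-1 : ℂ) • Th (r + 1) p q t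
    change (RR a b r p (q + 1) (c t v) - c t (RR a b r p (q + 1) v)) -
      (RR a b r (p + 1) q (c t v) - c t (RR a b r (p + 1) q v)) =
      (-1 : ℂ) • (RR a b (r + 1) p q (c t v) - c t (RR a b (r + 1) p q v))
    rw [← hP V a b ha hb r p q (c t v), ← hP V a b ha hb r p q v, map_sub, neg_one_smul]
    abel
  have hTh2 : ∀ (s : ℕ) (r : ℤ), ((W - Z : Module.End ℂ (ℤ → ℤ → ℤ → V)) ^ s) (Th r) =
      (-1 : ℂ) ^ s • Th (r + s) := by
    intro s
    induction s with
    | zero =>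
      intro r
      rw [Nat.cast_zero, add_zero, pow_zero, Module.End.one_apply, pow_zero, one_smul]
    | succ s ih =>
      intro r
      rw [pow_succ, Module.End.mul_apply, hTh1, map_smul, ih, Nat.cast_succ, smul_smul, pow_succ,
        mul_comm]
      congr 2
      ring
  have hTh3 : ∀ s : ℕ, K ≤ s → ((W - Z : Module.End ℂ (ℤ → ℤ → ℤ → V)) ^ s) (Th n) = 0 := by
    intro s hs
    rw [hTh2]
    have h4 : (N : ℤ) ≤ n + s := by
      have : (N : ℤ) - n ≤ K := Int.self_le_toNat _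
      omega
    obtain ⟨j, hj⟩ := Int.eq_ofNat_of_zero_le (sub_nonneg.2 h4)
    have h5 : n + s = N + (j : ℤ) := by omega
    have h6 : Th (n + s) = 0 := by
      funext p q t
      change RR a b (n + s) p q (c t v) - c t (RR a b (n + s) p q v) = 0
      rw [h5, RR_large hP ha hb hab', RR_large hP ha hb hab', map_zero, sub_zero]
    rw [h6, smul_zero]
  have hTh4 : ∀ r, (((Z - U) ^ N * (W - U) ^ N : Module.End ℂ (ℤ → ℤ → ℤ → V))) (Th r) = 0 := by
    intro r
    have e1 : Th r = fun p q t => ∑ᶠ i : ℕ, (trm a b r p q (c t v) i - c t (trm a b r p q v i)) := by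
      funext p q t
      have f1 := hF V a b ha hb r p q (c t v)
      have f2 := hF V a b ha hb r p q v
      have f3 : (Function.support fun i => c t (trm a b r p q v i)).Finite :=
        f2.subset fun i hi h0 => hi (by
          change c t (trm a b r p q v i) = 0
          rw [h0, map_zero])
      change RR a b r p q (c t v) - c t (RR a b r p q v) = _
      rw [finsum_sub_distrib f1 f3]
      congr 1
      exact (c t).toAddMonoidHom.map_finsum f2
    rw [e1]
    refine Gd.kill (((Gd_Z.sub Gd_U).pow N).mul ((Gd_W.sub Gd_U).pow N)) _ ?_ ?_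
    · intro p q t
      have f1 := hF V a b ha hb r p q (c t v)
      have f2 := hF V a b ha hb r p q v
      have f3 : (Function.support fun i => c t (trm a b r p q v i)).Finite :=
        f2.subset fun i hi h0 => hi (by
          change c t (trm a b r p q v i) = 0
          rw [h0, map_zero])
      exact (f1.union f3).subset (Function.support_sub (fun i => trm a b r p q (c t v) i)
        (fun i => c t (trm a b r p q v i)))
    · intro i
      have e2 : (fun p q t => trm a b r p q (c t v) i - c t (trm a b r p q v i)) =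
          ((-1 : ℂ) ^ i * bc r i) •
            ((fun p q t => a (p + (r - i)) (b (q + i) (c t v)) -
              c t (a (p + (r - i)) (b (q + i) v))) -
            (-1 : ℂ) ^ r • (fun p q t => b (q + (r - i)) (a (p + i) (c t v)) -
              c t (b (q + (r - i)) (a (p + i) v)))) := by
        funext p q t
        change ((-1 : ℂ) ^ i * bc r i) •
            (a (p + r - i) (b (q + i) (c t v)) - (-1 : ℂ) ^ r • b (q + r - i) (a (p + i) (c t v))) -
            c t (((-1 : ℂ) ^ i * bc r i) •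
            (a (p + r - i) (b (q + i) v) - (-1 : ℂ) ^ r • b (q + r - i) (a (p + i) v))) =
          ((-1 : ℂ) ^ i * bc r i) •
            ((a (p + (r - i)) (b (q + i) (c t v)) -
              c t (a (p + (r - i)) (b (q + i) v))) -
            (-1 : ℂ) ^ r • (b (q + (r - i)) (a (p + i) (c t v)) -
              c t (b (q + (r - i)) (a (p + i) v))))
        rw [map_smul, map_sub, map_smul, ← smul_sub, smul_sub ((-1 : ℂ) ^ r), add_sub_assoc,
          add_sub_assoc]
        congr 1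
        abel
      rw [e2, map_smul, map_sub, map_smul, kill1 hP ha hb hc hac' hbc' v (r - i) i,
        kill2 hP ha hb hc hac' hbc' v i (r - i), smul_zero, sub_zero, smul_zero]
  -- the expansion
  have hmain : ((W - U : Module.End ℂ (ℤ → ℤ → ℤ → V)) ^ (N + (N + K))) (Th n) = 0 := by
    have e1 : (W - U : Module.End ℂ (ℤ → ℤ → ℤ → V)) = (Z - U) + (W - Z) := by abel
    have e2 : (W - U : Module.End ℂ (ℤ → ℤ → ℤ → V)) ^ (N + K) =
        ∑ m ∈ Finset.range (N + K + 1), (Z - U) ^ m * (W - Z) ^ (N + K - m) *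
          ((N + K).choose m : Module.End ℂ (ℤ → ℤ → ℤ → V)) := by
      conv_lhs => rw [e1]
      exact comm2.add_pow (N + K)
    rw [pow_add, e2, Finset.mul_sum, LinearMap.sum_apply]
    refine Finset.sum_eq_zero fun m hm => ?_
    have hm' : m ≤ N + K := Nat.lt_succ_iff.1 (Finset.mem_range.1 hm)
    have e3 : (((N + K).choose m : ℕ) : Module.End ℂ (ℤ → ℤ → ℤ → V)) (Th n) =
        ((N + K).choose m : ℂ) • Th n := by
      rw [← Nat.smul_one_eq_cast, LinearMap.smul_apply, Module.End.one_apply,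
        Nat.cast_smul_eq_nsmul]
    rw [Module.End.mul_apply, Module.End.mul_apply, e3, map_smul, map_smul]
    by_cases hmN : N ≤ m
    · -- the exponent of `Z - U` is large
      obtain ⟨j, rfl⟩ := Nat.exists_eq_add_of_le hmN
      have c1 : Commute (W - Z : Module.End ℂ (ℤ → ℤ → ℤ → V)) (Z - U) := comm2.symm
      have c2 : Commute (W - Z : Module.End ℂ (ℤ → ℤ → ℤ → V)) (W - U) := by
        rw [e1]
        exact c1.add_right (Commute.refl _)
      have c3 : Commute (W - U : Module.End ℂ (ℤ → ℤ → ℤ → V)) (Z - U) := comm1.symm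
      have e4 : (W - U : Module.End ℂ (ℤ → ℤ → ℤ → V)) ^ N *
          ((Z - U) ^ (N + j) * (W - Z) ^ (N + K - (N + j))) =
          (W - Z) ^ (N + K - (N + j)) * (Z - U) ^ j * ((Z - U) ^ N * (W - U) ^ N) := by
        have d1 := (c1.pow_pow (N + K - (N + j)) (N + j)).eq
        have d2 := (c2.pow_pow (N + K - (N + j)) N).eq
        have d3 := (c3.pow_pow N (N + j)).eq
        rw [← d1, ← mul_assoc, ← d2, mul_assoc, d3, add_comm N j, pow_add]
        simp only [mul_assoc]
      have e5 : ((W - U : Module.End ℂ (ℤ → ℤ → ℤ → V)) ^ N)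
          (((Z - U) ^ (N + j) * (W - Z) ^ (N + K - (N + j)) :
            Module.End ℂ (ℤ → ℤ → ℤ → V)) (Th n)) = 0 := by
        rw [← Module.End.mul_apply, e4, Module.End.mul_apply, hTh4, map_zero]
      rw [e5, smul_zero]
    · rw [Module.End.mul_apply, hTh3 _ (by omega), map_zero, map_zero, smul_zero]
  -- conclusion
  have hfin : ∀ (k : ℕ) (q t : ℤ), ((W - U : Module.End ℂ (ℤ → ℤ → ℤ → V)) ^ k) (Th n) 0 q t =
      RR d c k q t v := by
    intro k
    induction k with
    | zero =>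
      intro q t
      change RR a b n 0 q (c t v) - c t (RR a b n 0 q v) = RR d c (0 : ℕ) q t v
      rw [← hdn, ← hdn, Nat.cast_zero, RR_zero]
    | succ k ih =>
      intro q t
      rw [pow_succ', Module.End.mul_apply]
      change ((W - U : Module.End ℂ (ℤ → ℤ → ℤ → V)) ^ k) (Th n) 0 (q + 1) t -
        ((W - U : Module.End ℂ (ℤ → ℤ → ℤ → V)) ^ k) (Th n) 0 q (t + 1) = _
      rw [ih, ih, Nat.cast_succ, hP V d c hd hc]
  rw [← hfin, hmain]
  rfl

theorem dong : S_FIN → S_PAS → S_SYM → S_DONG := fun h1 h2 _ => dong' h1 h2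

end Pool.Agent.W369.VO
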